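import Pool.Agent.Q90.SM.Stm

/-!
# Termwise differentiation (job ANA1)
-/

set_option autoImplicit false

open Complex Filter Topology Set Metric MeasureTheory

namespace Q275.SM

open Pool.Agent.TH325.SI (mn em la)
open Pool.Agent.H713R2 (tc)

lemma sum_pow {a : ℕ → ℝ} (ha : ∀ n, 0 ≤ a n)
    (hs : ∀ ρ : ℝ, 0 < ρ → ρ < 1 → Summable fun n : ℕ => a n * ρ ^ (2 * n)) (q : ℕ) {r : ℝ}
    (h0 : 0 < r) (h1 : r < 1) : Summable fun n : ℕ => (n : ℝ) ^ q * a n * r ^ (2 * n) := by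
  obtain ⟨ρ, hρ⟩ : ∃ ρ : ℝ, ρ = (1 + r) / 2 := ⟨_, rfl⟩
  have g0 : 0 < ρ := by rw [hρ]; linarith
  have g1 : ρ < 1 := by rw [hρ]; linarith
  have g2 : r < ρ := by rw [hρ]; linarith
  have h2 := hs ρ g0 g1
  obtain ⟨C, hC⟩ : ∃ C : ℝ, ∀ n, a n * ρ ^ (2 * n) ≤ C :=
    ⟨∑' n, a n * ρ ^ (2 * n), fun n => h2.le_tsum n fun m _ => by have := ha m; positivity⟩
  have h3 : ‖(r / ρ) ^ 2‖ < 1 := by
    rw [Real.norm_eq_abs, abs_of_nonneg (by positivity)]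
    have : r / ρ < 1 := (div_lt_one g0).mpr g2
    have h4 : 0 ≤ r / ρ := by positivity
    nlinarith
  have h4 := (summable_pow_mul_geometric_of_norm_lt_one q h3).mul_left C
  refine h4.of_nonneg_of_le (fun n => by have := ha n; positivity) fun n => ?_
  have h5 : r ^ (2 * n) = ρ ^ (2 * n) * ((r / ρ) ^ 2) ^ n := by
    rw [← pow_mul, ← mul_pow, mul_div_cancel₀ _ g0.ne']
  rw [h5]
  calc (n : ℝ) ^ q * a n * (ρ ^ (2 * n) * ((r / ρ) ^ 2) ^ n)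
      = (a n * ρ ^ (2 * n)) * ((n : ℝ) ^ q * ((r / ρ) ^ 2) ^ n) := by ring
    _ ≤ C * ((n : ℝ) ^ q * ((r / ρ) ^ 2) ^ n) :=
        mul_le_mul_of_nonneg_right (hC n) (by positivity)

lemma hasDeriv_sum {a : ℕ → ℝ} (ha : ∀ n, 0 ≤ a n)
    (hs : ∀ ρ : ℝ, 0 < ρ → ρ < 1 → Summable fun n : ℕ => a n * ρ ^ (2 * n)) (p : ℕ) {s : ℝ}
    (h0 : 0 < s) (h1 : s < 1) :
    HasDerivAt (fun s : ℝ => ∑' n : ℕ, (n : ℝ) ^ p * a n * s ^ (2 * n))
      (2 / s * ∑' n : ℕ, (n : ℝ) ^ (p + 1) * a n * s ^ (2 * n)) s := by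
  obtain ⟨r, hr⟩ : ∃ r : ℝ, r = (1 + s) / 2 := ⟨_, rfl⟩
  have g0 : 0 < r := by rw [hr]; linarith
  have g1 : r < 1 := by rw [hr]; linarith
  have g2 : s < r := by rw [hr]; linarith
  have hm : s ∈ Ioo (s / 2) r := ⟨by linarith, g2⟩
  have key := hasDerivAt_tsum_of_isPreconnected
    (u := fun n : ℕ => 4 / s * ((n : ℝ) ^ (p + 1) * a n * r ^ (2 * n)))
    (g := fun (n : ℕ) (z : ℝ) => (n : ℝ) ^ p * a n * z ^ (2 * n))
    (g' := fun (n : ℕ) (z : ℝ) => 2 / z * ((n : ℝ) ^ (p + 1) * a n * z ^ (2 * n)))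
    (t := Ioo (s / 2) r) (y₀ := s) (y := s)
    ((sum_pow ha hs (p + 1) g0 g1).mul_left (4 / s)) isOpen_Ioo isPreconnected_Ioo ?_ ?_ hm
    (sum_pow ha hs p h0 h1) hm
  · rw [tsum_mul_left] at key
    exact key
  · intro n y hy
    have hy0 : 0 < y := lt_trans (by linarith) hy.1
    have h3 := (hasDerivAt_pow (2 * n) y).const_mul ((n : ℝ) ^ p * a n)
    refine h3.congr_deriv ?_
    rcases Nat.eq_zero_or_pos n with rfl | hn
    · simp
    · have h4 : y ^ (2 * n) = y ^ (2 * n - 1) * y := by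
        rw [← pow_succ]
        congr 1
        omega
      rw [h4]
      push_cast
      field_simp
      ring
  · intro n y hy
    have hy0 : 0 < y := lt_trans (by linarith) hy.1
    have han := ha n
    rw [Real.norm_eq_abs, abs_of_nonneg (by positivity)]
    have h3 : 2 / y ≤ 4 / s := by
      rw [div_le_div_iff₀ hy0 h0]
      linarith [hy.1]
    have h4 : y ^ (2 * n) ≤ r ^ (2 * n) := pow_le_pow_left₀ hy0.le hy.2.le _
    exact mul_le_mul h3 (mul_le_mul_of_nonneg_left h4 (by positivity)) (by positivity)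
      (by positivity)

theorem ana1 : Q90.SM.S_ana1 := by
  intro F hF s h0 h1
  have hs : ∀ ρ : ℝ, 0 < ρ → ρ < 1 → Summable fun n : ℕ => ‖tc F n‖ ^ 2 * ρ ^ (2 * n) :=
    fun ρ g0 g1 => (Pool.Agent.TH325.SI.par hF g0 g1).summable
  have ha : ∀ n, 0 ≤ ‖tc F n‖ ^ 2 := fun n => by positivity
  constructor
  · have h2 := hasDeriv_sum ha hs 0 h0 h1
    have h3 : (∑' n : ℕ, (n : ℝ) ^ (0 + 1) * ‖tc F n‖ ^ 2 * s ^ (2 * n)) = Q90.SM.S1 F s := by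
      rw [Q90.SM.S1]
      simp only [zero_add, pow_one]
    rw [h3] at h2
    refine h2.congr_of_eventuallyEq ?_
    filter_upwards [isOpen_Ioo.mem_nhds (show s ∈ Ioo (0 : ℝ) 1 from ⟨h0, h1⟩)] with t ht
    rw [← (Pool.Agent.TH325.SI.par hF ht.1 ht.2).tsum_eq]
    simp only [pow_zero, one_mul]
  · have h2 := hasDeriv_sum ha hs 1 h0 h1
    have h3 : (∑' n : ℕ, (n : ℝ) ^ (1 + 1) * ‖tc F n‖ ^ 2 * s ^ (2 * n)) = Q90.SM.S2 F s := rfl
    rw [h3] at h2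
    have h4 : Q90.SM.S1 F = fun s : ℝ => ∑' n : ℕ, (n : ℝ) ^ 1 * ‖tc F n‖ ^ 2 * s ^ (2 * n) := by
      funext t
      rw [Q90.SM.S1]
      simp only [pow_one]
    rw [h4]
    exact h2

end Q275.SM
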