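import Mathlib

/-!
# An invariant disc for a Riccati equation
-/

set_option autoImplicit false

open Complex Filter Topology Set Metric MeasureTheory

namespace Q275.SM

/-- the trigonometric inequality -/
lemma trig_ineq {c R : ℝ} (hc : 0 < c) (hR : 0 < R) (h1 : R ^ 2 = 1 - c ^ 2) (h2 : 1 ≤ 2 * c ^ 2)
    (hc1 : c < 1) : 1 - c ≤ R * (2 * c - 1) := by
  have h3 : 0 ≤ 2 * c - 1 := by nlinarith
  refine abs_le_of_sq_le_sq' ?_ (mul_nonneg hR.le h3) |>.2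
  have h4 : (R * (2 * c - 1)) ^ 2 - (1 - c) ^ 2 = (1 - c) * (2 * c * (2 * c ^ 2 - 1)) := by
    rw [mul_pow, h1]; ring
  have h5 : 0 ≤ (1 - c) * (2 * c * (2 * c ^ 2 - 1)) :=
    mul_nonneg (by linarith) (mul_nonneg (by linarith) (by linarith))
  linarith

/-- the differential inequality outside the disc -/
lemma diff_ineq {c R k s : ℝ} (hc : 0 < c) (hR : 0 < R) (h1 : R ^ 2 = 1 - c ^ 2)
    (h2 : 1 ≤ 2 * c ^ 2) (hc1 : c < 1) (hk : k ≤ 2 * c * R) (hs0 : 0 < s) (hs1 : s < 1)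
    (U D τ : ℂ) (hτ : ‖τ‖ ≤ 2 * k * s ^ 2) (hU : 2 * R ≤ ‖U‖)
    (hD : ((s * (1 - s ^ 2) : ℝ) : ℂ) * D = -((1 + s ^ 2 : ℝ) : ℂ) * (U + ((2 * (1 - c) : ℝ) : ℂ)) +
      (U + ((2 * (1 - c) : ℝ) : ℂ)) ^ 2 / 2 + τ) :
    s * (1 - s ^ 2) * (2 * (U.re * D.re + U.im * D.im)) ≤ ‖U‖ * (‖U‖ ^ 2 - 4 * R ^ 2) := by
  have hre := congrArg Complex.re hD
  have him := congrArg Complex.im hD
  simp [pow_two] at hre him
  obtain ⟨r, hr⟩ : ∃ r, r = ‖U‖ := ⟨_, rfl⟩
  have hr2 : r ^ 2 = U.re ^ 2 + U.im ^ 2 := by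
    rw [hr, Complex.sq_norm, Complex.normSq_apply]; ring
  have hr0 : 0 ≤ r := by rw [hr]; exact norm_nonneg U
  rw [← hr] at hU ⊢
  have hUre : U.re ≤ r := by rw [hr]; exact (le_abs_self _).trans (Complex.abs_re_le_norm U)
  have hcs : U.re * τ.re + U.im * τ.im ≤ r * (2 * k * s ^ 2) := by
    have h3 : U.re * τ.re + U.im * τ.im = ((starRingEnd ℂ) U * τ).re := by simp
    rw [h3]
    refine (Complex.re_le_norm _).trans ?_
    rw [norm_mul, Complex.norm_conj, ← hr]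
    exact mul_le_mul_of_nonneg_left hτ hr0
  have key : s * (1 - s ^ 2) * (2 * (U.re * D.re + U.im * D.im)) =
      2 * (U.re * (r ^ 2 / 2 - 2 * (1 - c) * (c + s ^ 2)) + r ^ 2 * (1 - 2 * c - s ^ 2) +
        (U.re * τ.re + U.im * τ.im)) := by
    rw [hr2]
    linear_combination 2 * U.re * hre + 2 * U.im * him
  rw [key]
  obtain ⟨x, hx⟩ : ∃ x, x = 1 - s ^ 2 := ⟨_, rfl⟩
  have hs2 : s ^ 2 = 1 - x := by rw [hx]; ring
  have hx0 : 0 < x := by rw [hx]; nlinarith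
  have hx1 : x < 1 := by rw [hx]; nlinarith
  rw [hs2] at hcs ⊢
  have hB : 0 ≤ r ^ 2 / 2 - 2 * (1 - c) * (c + (1 - x)) := by
    have h3 : (2 * R) ^ 2 ≤ r ^ 2 := pow_le_pow_left₀ (by linarith) hU 2
    have h4 : r ^ 2 / 2 - 2 * (1 - c) * (c + (1 - x)) = (r ^ 2 - (2 * R) ^ 2) / 2 +
        2 * ((1 - c) * x) := by
      have : (2 * R) ^ 2 = 4 * (1 - c ^ 2) := by rw [mul_pow, h1]; ring
      rw [this]; ring
    have h5 : 0 ≤ (1 - c) * x := mul_nonneg (by linarith) hx0.le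
    rw [h4]
    linarith
  have hU2 := mul_le_mul_of_nonneg_right hUre hB
  have h2c : 1 ≤ 2 * c := by nlinarith
  have h6 : r * (x - 2 * c) ≤ 2 * R * (x - 2 * c) :=
    mul_le_mul_of_nonpos_right hU (by linarith)
  have h7 : k * (1 - x) ≤ 2 * c * R * (1 - x) := mul_le_mul_of_nonneg_right hk (by linarith)
  have h8 := mul_le_mul_of_nonneg_left (trig_ineq hc hR h1 h2 hc1) hx0.le
  have h9 : 2 * (1 - c) * x + r * (x - 2 * c) + 2 * k * (1 - x) ≤ 0 := by nlinarith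
  have h10 := mul_le_mul_of_nonneg_left h9 hr0
  have h11 : 2 * (1 - c) * (c + (1 - x)) = 2 * R ^ 2 - 2 * (1 - c) * x := by rw [h1]; ring
  rw [h11] at hU2 ⊢
  nlinarith

/-- an invariant disc -/
theorem inv_aux (α k : ℝ) (hα : 0 < α) (hα4 : α ≤ Real.pi / 4) (hk : k ≤ Real.sin (2 * α))
    (W W' τ : ℝ → ℂ)
    (h : ∀ s : ℝ, 0 < s → s < 1 → HasDerivAt W (W' s) s ∧ ‖τ s‖ ≤ 2 * k * s ^ 2 ∧
      ((s * (1 - s ^ 2) : ℝ) : ℂ) * W' s = -((1 + s ^ 2 : ℝ) : ℂ) * W s + W s ^ 2 / 2 + τ s)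
    (h0 : Tendsto W (𝓝[>] 0) (𝓝 0)) (s1 : ℝ) (hs1 : 0 < s1) (hs1' : s1 < 1) :
    ‖W s1 - ((2 * (1 - Real.cos α) : ℝ) : ℂ)‖ ≤ 2 * Real.sin α := by
  have hpi := Real.pi_pos
  obtain ⟨c, hc⟩ : ∃ c, c = Real.cos α := ⟨_, rfl⟩
  obtain ⟨R, hR⟩ : ∃ R, R = Real.sin α := ⟨_, rfl⟩
  have hR0 : 0 < R := by rw [hR]; exact Real.sin_pos_of_pos_of_lt_pi hα (by linarith)
  have hcs := Real.sin_sq_add_cos_sq α
  have h1 : R ^ 2 = 1 - c ^ 2 := by rw [hR, hc]; linarith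
  have hc2 : Real.cos (Real.pi / 4) ≤ c := by
    rw [hc]
    exact Real.cos_le_cos_of_nonneg_of_le_pi hα.le (by linarith) hα4
  rw [Real.cos_pi_div_four] at hc2
  have hsq2 : 0 < Real.sqrt 2 := by positivity
  have hc0 : 0 < c := by linarith
  have h2 : 1 ≤ 2 * c ^ 2 := by
    have h3 := pow_le_pow_left₀ (by positivity : 0 ≤ Real.sqrt 2 / 2) hc2 2
    rw [div_pow, Real.sq_sqrt (by norm_num)] at h3
    linarith
  have hc1 : c < 1 := by nlinarith
  have hk' : k ≤ 2 * c * R := by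
    rw [Real.sin_two_mul, ← hc, ← hR] at hk
    linarith
  rw [← hc, ← hR]
  obtain ⟨U, hU⟩ : ∃ U : ℝ → ℂ, U = fun s => W s - ((2 * (1 - c) : ℝ) : ℂ) := ⟨_, rfl⟩
  have hUs : ∀ s, W s = U s + ((2 * (1 - c) : ℝ) : ℂ) := by intro s; rw [hU]; ring
  have hUd : ∀ s : ℝ, 0 < s → s < 1 → HasDerivAt U (W' s) s := by
    intro s g0 g1
    rw [hU]
    exact (h s g0 g1).1.sub_const _
  obtain ⟨F, hF⟩ : ∃ F : ℝ → ℝ, F = fun s => ‖U s‖ ^ 2 - 4 * R ^ 2 := ⟨_, rfl⟩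
  have hFd : ∀ s : ℝ, 0 < s → s < 1 →
      HasDerivAt F (2 * ((U s).re * (W' s).re + (U s).im * (W' s).im)) s := by
    intro s g0 g1
    rw [hF]
    have h3 := ((hUd s g0 g1).norm_sq).sub_const (4 * R ^ 2)
    have h4 : 2 * inner ℝ (U s) (W' s) = 2 * ((U s).re * (W' s).re + (U s).im * (W' s).im) := by
      rw [Complex.inner]
      simp
      ring
    rw [h4] at h3
    exact h3
  have hFi : ∀ s : ℝ, 0 < s → s < 1 → 0 ≤ F s →
      s * (1 - s ^ 2) * (2 * ((U s).re * (W' s).re + (U s).im * (W' s).im)) ≤ ‖U s‖ * F s := by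
    intro s g0 g1 g2
    have h3 := h s g0 g1
    rw [hF] at g2 ⊢
    refine diff_ineq hc0 hR0 h1 h2 hc1 hk' g0 g1 (U s) (W' s) (τ s) h3.2.1 ?_ ?_
    · have g3 : (2 * R) ^ 2 ≤ ‖U s‖ ^ 2 := by
        have : 0 ≤ ‖U s‖ ^ 2 - 4 * R ^ 2 := g2
        nlinarith
      exact abs_le_of_sq_le_sq' g3 (norm_nonneg _) |>.2
    · rw [← hUs]
      exact h3.2.2
  have hF1 : F s1 ≤ 0 := by
    by_contra hcon
    push Not at hcon
    -- a point near 0
    have hlim : Tendsto F (𝓝[>] 0) (𝓝 (-(8 * c * (1 - c)))) := by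
      have h3 : Tendsto U (𝓝[>] 0) (𝓝 (0 - ((2 * (1 - c) : ℝ) : ℂ))) := by
        rw [hU]
        exact h0.sub_const _
      have h4 := ((h3.norm).pow 2).sub_const (4 * R ^ 2)
      have h5 : ‖(0 : ℂ) - ((2 * (1 - c) : ℝ) : ℂ)‖ ^ 2 - 4 * R ^ 2 = -(8 * c * (1 - c)) := by
        rw [zero_sub, norm_neg, Complex.norm_real, Real.norm_eq_abs, sq_abs, h1]
        ring
      rw [h5] at h4
      rw [hF]
      exact h4
    have hneg : ∀ᶠ s in 𝓝[>] (0 : ℝ), F s < 0 := by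
      refine hlim.eventually_lt_const ?_
      have : 0 < 8 * c * (1 - c) := by
        have : 0 < 1 - c := by linarith
        positivity
      linarith
    have hsm : ∀ᶠ s in 𝓝[>] (0 : ℝ), s ∈ Ioo 0 s1 := Ioo_mem_nhdsGT hs1
    obtain ⟨s0, g1, g2⟩ := (hneg.and hsm).exists
    have hcont : ContinuousOn F (Icc s0 s1) := fun s hs =>
      (hFd s (lt_of_lt_of_le g2.1 hs.1) (lt_of_le_of_lt hs.2 hs1')).continuousAt.continuousWithinAt
    have hcomp : IsCompact (Icc s0 s1 ∩ F ⁻¹' Iic 0) :=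
      isCompact_Icc.of_isClosed_subset (hcont.preimage_isClosed_of_isClosed isClosed_Icc isClosed_Iic)
        inter_subset_left
    obtain ⟨q, hq, hqm⟩ := hcomp.exists_isGreatest ⟨s0, ⟨le_refl _, g2.2.le⟩, g1.le⟩
    have hq0 : 0 < q := lt_of_lt_of_le g2.1 hq.1.1
    have hpos : ∀ s, q < s → s ≤ s1 → 0 < F s := by
      intro s g3 g4
      by_contra hc'
      push Not at hc'
      have := hqm (show s ∈ Icc s0 s1 ∩ F ⁻¹' Iic 0 from ⟨⟨hq.1.1.trans g3.le, g4⟩, hc'⟩)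
      linarith
    have hq1 : q ≤ s1 := hq.1.2
    have hcontg : ContinuousOn (fun s => ‖U s‖ / (s * (1 - s ^ 2))) (Icc q s1) := by
      refine ContinuousOn.div ?_ (by fun_prop) ?_
      · intro s hs
        exact (hUd s (lt_of_lt_of_le hq0 hs.1) (lt_of_le_of_lt hs.2 hs1')).continuousAt.norm.continuousWithinAt
      · intro s hs
        have g3 : 0 < s := lt_of_lt_of_le hq0 hs.1
        have g4 : s < 1 := lt_of_le_of_lt hs.2 hs1'
        have : 0 < 1 - s ^ 2 := by nlinarith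
        positivity
    obtain ⟨K, hK⟩ := isCompact_Icc.exists_bound_of_continuousOn hcontg
    obtain ⟨G, hG⟩ : ∃ G : ℝ → ℝ, G = fun s => F s * Real.exp (-(K * s)) := ⟨_, rfl⟩
    have hGd : ∀ s : ℝ, 0 < s → s < 1 → HasDerivAt G
        (2 * ((U s).re * (W' s).re + (U s).im * (W' s).im) * Real.exp (-(K * s)) +
          F s * (Real.exp (-(K * s)) * (-(K * 1)))) s := by
      intro s g3 g4
      rw [hG]
      exact (hFd s g3 g4).mul (((hasDerivAt_id s).const_mul K).neg.exp)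
    have hanti : AntitoneOn G (Icc q s1) := by
      refine antitoneOn_of_deriv_nonpos (convex_Icc _ _) ?_ ?_ ?_
      · intro s hs
        exact (hGd s (lt_of_lt_of_le hq0 hs.1)
          (lt_of_le_of_lt hs.2 hs1')).continuousAt.continuousWithinAt
      · intro s hs
        rw [interior_Icc] at hs
        exact (hGd s (hq0.trans hs.1) (hs.2.trans hs1')).differentiableAt.differentiableWithinAt
      · intro s hs
        rw [interior_Icc] at hs
        have g3 : 0 < s := hq0.trans hs.1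
        have g4 : s < 1 := hs.2.trans hs1'
        have gx : 0 < s * (1 - s ^ 2) := by
          have : 0 < 1 - s ^ 2 := by nlinarith
          positivity
        rw [(hGd s g3 g4).deriv]
        have g5 := hpos s hs.1 hs.2.le
        have g6 := hFi s g3 g4 g5.le
        have g7 := hK s ⟨hs.1.le, hs.2.le⟩
        rw [Real.norm_eq_abs] at g7
        have g8 : ‖U s‖ / (s * (1 - s ^ 2)) ≤ K := (le_abs_self _).trans g7
        rw [div_le_iff₀ gx] at g8
        have g9 : s * (1 - s ^ 2) * (2 * ((U s).re * (W' s).re + (U s).im * (W' s).im)) ≤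
            s * (1 - s ^ 2) * (K * F s) := by
          refine g6.trans ?_
          calc ‖U s‖ * F s ≤ K * (s * (1 - s ^ 2)) * F s := mul_le_mul_of_nonneg_right g8 g5.le
            _ = s * (1 - s ^ 2) * (K * F s) := by ring
        have g10 := le_of_mul_le_mul_left g9 gx
        have g11 := Real.exp_pos (-(K * s))
        nlinarith
    have hfin := hanti (left_mem_Icc.mpr hq1) (right_mem_Icc.mpr hq1) hq1
    rw [hG] at hfin
    have g12 : F q ≤ 0 := hq.2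
    have g13 := Real.exp_pos (-(K * s1))
    have g14 := Real.exp_pos (-(K * q))
    have g15 : F s1 * Real.exp (-(K * s1)) ≤ F q * Real.exp (-(K * q)) := hfin
    have g16 : F q * Real.exp (-(K * q)) ≤ 0 := mul_nonpos_of_nonpos_of_nonneg g12 g14.le
    have g17 : 0 < F s1 * Real.exp (-(K * s1)) := mul_pos hcon g13
    linarith
  have h5 : ‖U s1‖ ^ 2 ≤ (2 * R) ^ 2 := by
    rw [hF] at hF1
    have : ‖U s1‖ ^ 2 - 4 * R ^ 2 ≤ 0 := hF1
    nlinarith
  have h6 := abs_le_of_sq_le_sq' h5 (by linarith) |>.2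
  rw [hU] at h6
  exact h6

end Q275.SM
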