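import Pool.Agent.Q90.SM.Stm
import Pool.Agent.Q275.SM.Inv0

/-!
# An invariant disc for a Riccati equation (job INV)
-/

set_option autoImplicit false

open Complex Filter Topology Set Metric MeasureTheory

namespace Q275.SM

theorem inv_disc : Q90.SM.S_inv := by
  intro α k hα hα4 _ hk W W' τ h h0 s hs hs1
  exact inv_aux α k hα hα4 hk W W' τ h h0 s hs hs1

end Q275.SM
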