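import Mathlib

/-!
# Absorption of a Riccati flow into a disc (real form)
-/

set_option autoImplicit false

open Filter Topology Set

namespace Q275.SM

/-- the vector field points inwards on the boundary of the disc with diameter `[p, q]` -/
theorem disc_lemma {k' k1 p q a b σ1 σ2 : ℝ} (hk1 : 0 ≤ k1) (hpq : p < q) (hp : p ^ 2 ≤ 1 - k')
    (hq : 1 + k' ≤ q ^ 2)
    (hab : (a - (p + q) / 2) ^ 2 + b ^ 2 = ((q - p) / 2) ^ 2) (hσ : σ1 ^ 2 + σ2 ^ 2 ≤ k1 ^ 2) :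
    (a - (p + q) / 2) * (1 - a ^ 2 + b ^ 2 - σ1) + b * (-2 * a * b - σ2) ≤
      -((q - p) / 2 * (k' - k1)) := by
  obtain ⟨c, hc⟩ : ∃ c, c = (p + q) / 2 := ⟨_, rfl⟩
  obtain ⟨R, hR⟩ : ∃ R, R = (q - p) / 2 := ⟨_, rfl⟩
  obtain ⟨A, hA⟩ : ∃ A, A = a - c := ⟨_, rfl⟩
  have hR0 : 0 < R := by rw [hR]; linarith
  have hp' : p = c - R := by rw [hc, hR]; ring
  have hq' : q = c + R := by rw [hc, hR]; ring
  have ha : a = A + c := by rw [hA]; ring
  rw [← hc, ← hR] at hab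
  rw [← hc, ← hR]
  rw [← hA] at hab ⊢
  rw [hp'] at hp
  rw [hq'] at hq
  have e1 : A * (1 - a ^ 2 + b ^ 2 - σ1) + b * (-2 * a * b - σ2) =
      A * (1 - c ^ 2 - R ^ 2) - 2 * c * R ^ 2 - (A * σ1 + b * σ2) := by
    rw [ha]
    linear_combination (-(A + 2 * c)) * hab
  rw [e1]
  have hAR : -R ≤ A ∧ A ≤ R := abs_le_of_sq_le_sq' (by nlinarith [sq_nonneg b]) hR0.le
  have h1 : A * (1 - c ^ 2 - R ^ 2) - 2 * c * R ^ 2 ≤ -(R * k') := by
    rcases le_total 0 (1 - c ^ 2 - R ^ 2) with h | h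
    · have h2 := mul_le_mul_of_nonneg_right hAR.2 h
      nlinarith
    · have h2 := mul_le_mul_of_nonpos_right hAR.1 h
      nlinarith
  have h2 : -(A * σ1 + b * σ2) ≤ R * k1 := by
    have h3 : (A * σ1 + b * σ2) ^ 2 ≤ (R * k1) ^ 2 := by
      have h4 : (A * σ1 + b * σ2) ^ 2 ≤ (A ^ 2 + b ^ 2) * (σ1 ^ 2 + σ2 ^ 2) := by
        nlinarith [sq_nonneg (A * σ2 - b * σ1)]
      rw [hab] at h4
      rw [mul_pow]
      exact h4.trans (mul_le_mul_of_nonneg_left hσ (by positivity))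
    have h5 := (abs_le_of_sq_le_sq' h3 (by positivity)).1
    linarith
  linarith

/-- the moving disc -/
theorem moving {k' k1 η sa sb : ℝ} (hη : η = k' - k1) (hk1 : 0 ≤ k1) (hsa : 0 < sa) (hsb : sb < 1)
    (a b a' b' σ1 σ2 p q p' q' : ℝ → ℝ)
    (ha : ∀ s ∈ Icc sa sb, HasDerivAt a (a' s) s) (hb : ∀ s ∈ Icc sa sb, HasDerivAt b (b' s) s)
    (oa : ∀ s ∈ Icc sa sb, s * (1 - s ^ 2) * a' s = 1 - a s ^ 2 + b s ^ 2 - σ1 s)
    (ob : ∀ s ∈ Icc sa sb, s * (1 - s ^ 2) * b' s = -2 * a s * b s - σ2 s)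
    (hσ : ∀ s ∈ Icc sa sb, σ1 s ^ 2 + σ2 s ^ 2 ≤ k1 ^ 2)
    (dp : ∀ s ∈ Icc sa sb, HasDerivAt p (p' s) s) (dq : ∀ s ∈ Icc sa sb, HasDerivAt q (q' s) s)
    (hp' : ∀ s ∈ Icc sa sb, 0 ≤ s * (1 - s ^ 2) * p' s ∧ s * (1 - s ^ 2) * p' s < η)
    (hq' : ∀ s ∈ Icc sa sb, s * (1 - s ^ 2) * q' s ≤ 0 ∧ -η < s * (1 - s ^ 2) * q' s)
    (hpq : ∀ s ∈ Icc sa sb, p s < q s) (hp : ∀ s ∈ Icc sa sb, p s ^ 2 ≤ 1 - k')
    (hq : ∀ s ∈ Icc sa sb, 1 + k' ≤ q s ^ 2)
    (h0 : (a sa - (p sa + q sa) / 2) ^ 2 + b sa ^ 2 ≤ ((q sa - p sa) / 2) ^ 2) :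
    ∀ s ∈ Icc sa sb, (a s - (p s + q s) / 2) ^ 2 + b s ^ 2 ≤ ((q s - p s) / 2) ^ 2 := by
  have hd : ∀ s ∈ Icc sa sb, HasDerivAt
      (fun s => (a s - (p s + q s) / 2) ^ 2 + b s ^ 2 - ((q s - p s) / 2) ^ 2)
      (2 * (a s - (p s + q s) / 2) * (a' s - (p' s + q' s) / 2) + 2 * b s * b' s -
        2 * ((q s - p s) / 2) * ((q' s - p' s) / 2)) s := by
    intro s hs
    have e1 := ((ha s hs).sub (((dp s hs).add (dq s hs)).div_const 2)).pow 2
    have e2 := (hb s hs).pow 2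
    have e3 := (((dq s hs).sub (dp s hs)).div_const 2).pow 2
    refine ((e1.add e2).sub e3).congr_deriv ?_
    simp only [Pi.sub_apply, Pi.add_apply]
    norm_num
  intro s hs
  have key := image_le_of_deriv_right_lt_deriv_boundary'
    (f := fun s => (a s - (p s + q s) / 2) ^ 2 + b s ^ 2 - ((q s - p s) / 2) ^ 2)
    (f' := fun s => 2 * (a s - (p s + q s) / 2) * (a' s - (p' s + q' s) / 2) + 2 * b s * b' s -
        2 * ((q s - p s) / 2) * ((q' s - p' s) / 2)) (a := sa) (b := sb)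
    (fun t ht => (hd t ht).continuousAt.continuousWithinAt)
    (fun t ht => (hd t ⟨ht.1, ht.2.le⟩).hasDerivWithinAt)
    (B := fun _ => 0) (B' := fun _ => 0) (by
      show (a sa - (p sa + q sa) / 2) ^ 2 + b sa ^ 2 - ((q sa - p sa) / 2) ^ 2 ≤ 0
      linarith) continuousOn_const (fun t _ => hasDerivWithinAt_const _ _ _) (by
      intro t ht' hf
      have ht : t ∈ Icc sa sb := ⟨ht'.1, ht'.2.le⟩
      have ht0 : 0 < t := lt_of_lt_of_le hsa ht.1
      have ht1 : t < 1 := lt_of_le_of_lt ht.2 hsb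
      have hx : 0 < t * (1 - t ^ 2) := by
        have : 0 < 1 - t ^ 2 := by nlinarith
        positivity
      have hf' : (a t - (p t + q t) / 2) ^ 2 + b t ^ 2 = ((q t - p t) / 2) ^ 2 := by
        have : (a t - (p t + q t) / 2) ^ 2 + b t ^ 2 - ((q t - p t) / 2) ^ 2 = 0 := hf
        linarith
      have h1 := disc_lemma hk1 (hpq t ht) (hp t ht) (hq t ht) hf' (hσ t ht)
      rw [← oa t ht, ← ob t ht, ← hη] at h1
      obtain ⟨P, hP⟩ : ∃ P, P = t * (1 - t ^ 2) * p' t := ⟨_, rfl⟩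
      obtain ⟨Q, hQ⟩ : ∃ Q, Q = t * (1 - t ^ 2) * q' t := ⟨_, rfl⟩
      obtain ⟨P1, P2⟩ := hp' t ht
      obtain ⟨Q1, Q2⟩ := hq' t ht
      rw [← hP] at P1 P2
      rw [← hQ] at Q1 Q2
      obtain ⟨A, hA⟩ : ∃ A, A = a t - (p t + q t) / 2 := ⟨_, rfl⟩
      obtain ⟨R, hR⟩ : ∃ R, R = (q t - p t) / 2 := ⟨_, rfl⟩
      have hR0 : 0 < R := by
        have := hpq t ht
        rw [hR]; linarith
      rw [← hA, ← hR] at hf'
      rw [← hA, ← hR] at h1
      have hAR : -R ≤ A ∧ A ≤ R := abs_le_of_sq_le_sq' (by nlinarith [sq_nonneg (b t)]) hR0.le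
      show 2 * (a t - (p t + q t) / 2) * (a' t - (p' t + q' t) / 2) + 2 * b t * b' t -
        2 * ((q t - p t) / 2) * ((q' t - p' t) / 2) < 0
      rw [← hA, ← hR]
      have h2 : t * (1 - t ^ 2) * (2 * A * (a' t - (p' t + q' t) / 2) + 2 * b t * b' t -
          2 * R * ((q' t - p' t) / 2)) =
          2 * (A * (t * (1 - t ^ 2) * a' t) + b t * (t * (1 - t ^ 2) * b' t)) +
          P * (R - A) - Q * (R + A) := by
        rw [hP, hQ]
        ring
      have h3 : P * (R - A) - Q * (R + A) < 2 * R * η := by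
        have h4 : P * (R - A) ≤ P * (R - A) + 0 := by linarith
        rcases eq_or_lt_of_le hAR.2 with h5 | h5
        · have h6 : R - A = 0 := by linarith
          rw [h6]
          have h7 : -Q * (R + A) < η * (R + A) :=
            mul_lt_mul_of_pos_right (by linarith) (by linarith)
          nlinarith
        · have h6 : P * (R - A) < η * (R - A) := mul_lt_mul_of_pos_right P2 (by linarith)
          have h7 : -Q * (R + A) ≤ η * (R + A) :=
            mul_le_mul_of_nonneg_right (by linarith) (by linarith)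
          nlinarith
      by_contra hcon
      push Not at hcon
      have h8 := mul_nonneg hx.le hcon
      rw [h2] at h8
      nlinarith)
  have h9 : (a s - (p s + q s) / 2) ^ 2 + b s ^ 2 - ((q s - p s) / 2) ^ 2 ≤ 0 := key hs
  linarith

end Q275.SM
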