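import Pool.Agent.Q90.SM.Stm2
import Pool.Agent.Q275.SM.Loc0
import Pool.Agent.TH325.SI.D

/-!
# Absorption of the Riccati flow into the disc (job LOC)
-/

set_option autoImplicit false

open Complex Filter Topology Set Metric MeasureTheory

namespace Q275.SM

open Pool.Agent.TH325.SI (la la_deriv la_mono')

theorem osq {s : ℝ} (h0 : 0 < s) (h1 : s < 1) : 0 < 1 - s ^ 2 := by nlinarith

theorem cR1 {c R k' : ℝ} (h : c ^ 2 + R ^ 2 = 1) (hk : k' = 2 * R * c) : (c - R) ^ 2 = 1 - k' := by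
  rw [hk]
  linear_combination h

theorem cR2 {c R k' : ℝ} (h : c ^ 2 + R ^ 2 = 1) (hk : k' = 2 * R * c) : (c + R) ^ 2 = 1 + k' := by
  rw [hk]
  linear_combination h

/-- the time of the flow -/
noncomputable def tm (s : ℝ) : ℝ := Real.log s - Real.log (1 - s ^ 2) / 2

theorem tm_deriv {s : ℝ} (h0 : 0 < s) (h1 : s < 1) : HasDerivAt tm ((s * (1 - s ^ 2))⁻¹) s := by
  have hx : 0 < 1 - s ^ 2 := by nlinarith
  have h2 : HasDerivAt (fun t : ℝ => 1 - t ^ 2) (-(2 * s)) s := by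
    have := (hasDerivAt_pow 2 s).const_sub 1
    simpa using this
  have h3 := (Real.hasDerivAt_log h0.ne').sub ((h2.log hx.ne').div_const 2)
  refine h3.congr_deriv ?_
  field_simp
  ring

theorem tm_mono {s t : ℝ} (h0 : 0 < s) (h : s ≤ t) (h1 : t < 1) : tm s ≤ tm t := by
  unfold tm
  have h2 := Real.log_le_log h0 h
  have h3 : Real.log (1 - t ^ 2) ≤ Real.log (1 - s ^ 2) :=
    Real.log_le_log (by nlinarith) (by nlinarith)
  linarith

theorem tm_surj (t : ℝ) : ∃ s, 0 < s ∧ s < 1 ∧ tm s = t := by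
  have he := Real.exp_pos t
  have hD : 0 < 1 + Real.exp t ^ 2 := by positivity
  have hsq : Real.sqrt (1 + Real.exp t ^ 2) ^ 2 = 1 + Real.exp t ^ 2 := Real.sq_sqrt hD.le
  have hs0 : 0 < Real.sqrt (1 + Real.exp t ^ 2) := Real.sqrt_pos.2 hD
  have hs2 : 1 - (Real.exp t / Real.sqrt (1 + Real.exp t ^ 2)) ^ 2 = (1 + Real.exp t ^ 2)⁻¹ := by
    rw [div_pow, hsq]
    field_simp
    ring
  refine ⟨Real.exp t / Real.sqrt (1 + Real.exp t ^ 2), by positivity, ?_, ?_⟩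
  · rw [div_lt_one hs0]
    refine Real.lt_sqrt_of_sq_lt ?_
    linarith
  · unfold tm
    rw [hs2, Real.log_inv, Real.log_div he.ne' hs0.ne', Real.log_exp, Real.log_sqrt hD.le]
    ring

theorem la_surj {M : ℝ} (hM : 0 < M) : ∃ s, 0 < s ∧ s < 1 ∧ la s = M := by
  have h1 : Real.exp (-M) < 1 := by
    have h4 := Real.exp_lt_exp.2 (show -M < 0 by linarith)
    rwa [Real.exp_zero] at h4
  have h2 : 0 < Real.exp (-M) := Real.exp_pos _
  have h3 : 0 < 1 - Real.exp (-M) := by linarith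
  refine ⟨Real.sqrt (1 - Real.exp (-M)), Real.sqrt_pos.2 h3, ?_, ?_⟩
  · rw [Real.sqrt_lt' one_pos]
    linarith
  · unfold la
    rw [Real.sq_sqrt h3.le, sub_sub_cancel, Real.log_exp, neg_neg]

theorem loc : Q90.SM.S_loc := by
  intro α k hα hα4 hk hk' s1 hs1 hs1'
  have hpi := Real.pi_pos
  obtain ⟨c, hc⟩ : ∃ c, c = Real.cos α := ⟨_, rfl⟩
  obtain ⟨R, hR⟩ : ∃ R, R = Real.sin α := ⟨_, rfl⟩
  have hR0 : 0 < R := by rw [hR]; exact Real.sin_pos_of_pos_of_lt_pi hα (by linarith)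
  have hRc : R < c := by
    rw [hR, hc, ← Real.cos_pi_div_two_sub]
    exact Real.cos_lt_cos_of_nonneg_of_le_pi hα.le (by linarith) (by linarith)
  have hcR : c ^ 2 + R ^ 2 = 1 := by
    rw [hc, hR]
    exact Real.cos_sq_add_sin_sq α
  rw [Real.sin_two_mul, ← hc, ← hR] at hk'
  rw [← hc, ← hR]
  obtain ⟨k', hk'd⟩ : ∃ k', k' = 2 * R * c := ⟨_, rfl⟩
  rw [← hk'd] at hk'
  obtain ⟨k1, hk1d⟩ : ∃ k1, k1 = (k + k') / 2 := ⟨_, rfl⟩
  obtain ⟨η, hηd⟩ : ∃ η, η = k' - k1 := ⟨_, rfl⟩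
  have hη0 : 0 < η := by rw [hηd, hk1d]; linarith
  have hk10 : 0 ≤ k1 := by rw [hk1d]; linarith
  have hk'1 : k' ≤ 1 := by
    have := cR1 hcR hk'd
    have := sq_nonneg (c - R)
    linarith
  have hη1 : η ≤ 1 := by rw [hηd]; linarith
  obtain ⟨ps, hps⟩ : ∃ ps, ps = c - R := ⟨_, rfl⟩
  obtain ⟨qs, hqs⟩ : ∃ qs, qs = c + R := ⟨_, rfl⟩
  have hps0 : 0 < ps := by rw [hps]; linarith
  have hpsq : ps < qs := by rw [hps, hqs]; linarith
  have hps2 : ps ^ 2 = 1 - k' := by rw [hps]; exact cR1 hcR hk'd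
  have hqs2 : qs ^ 2 = 1 + k' := by rw [hqs]; exact cR2 hcR hk'd
  have hps1 : ps ≤ 1 := by
    have h1 : ps ^ 2 ≤ 1 ^ 2 := by rw [hps2]; linarith
    exact (abs_le_of_sq_le_sq' h1 zero_le_one).2
  obtain ⟨ε, hε⟩ : ∃ ε, ε = ps / 2 := ⟨_, rfl⟩
  have hε0 : 0 < ε := by rw [hε]; linarith
  -- the point `s2`
  obtain ⟨s2, h12, hs21, hs2η⟩ : ∃ s2, s1 ≤ s2 ∧ s2 < 1 ∧ 3 * (1 - s2 ^ 2) ≤ η := by
    have h1 : 0 < 1 - η / 3 := by linarith
    refine ⟨max s1 (Real.sqrt (1 - η / 3)), le_max_left _ _, max_lt hs1' ?_, ?_⟩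
    · rw [Real.sqrt_lt' one_pos]
      linarith
    · have h2 : Real.sqrt (1 - η / 3) ^ 2 ≤ (max s1 (Real.sqrt (1 - η / 3))) ^ 2 :=
        pow_le_pow_left₀ (Real.sqrt_nonneg _) (le_max_right _ _) 2
      rw [Real.sq_sqrt h1.le] at h2
      linarith
  have hs20 : 0 < s2 := lt_of_lt_of_le hs1 h12
  have hla0 : 0 ≤ la s2 := by
    unfold la
    rw [neg_nonneg]
    exact Real.log_nonpos (osq hs20 hs21).le (by linarith [sq_nonneg s2])
  -- the point `s2'`
  obtain ⟨t2, ht20, ht21, ht2⟩ := la_surj (M := (2 + ε) * la s2 / ε + 1) (by positivity)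
  have ht2' : (2 + ε) * la s2 < ε * la t2 := by
    rw [ht2, mul_add, mul_div_cancel₀ _ hε0.ne']
    linarith
  have hs2t2 : s2 < t2 := by
    by_contra hcon
    push Not at hcon
    have h1 := mul_le_mul_of_nonneg_left (la_mono' ht20.le hcon hs21) hε0.le
    linarith
  obtain ⟨q0, hq0⟩ : ∃ q0, q0 = 16 / ε + 1 + qs := ⟨_, rfl⟩
  have hεq0 : 16 < ε * q0 := by
    rw [hq0, mul_add, mul_add, mul_div_cancel₀ _ hε0.ne']
    have h1 : 0 < ε * qs := mul_pos hε0 (hps0.trans hpsq)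
    linarith
  have hq0s : qs < q0 := by
    have : 0 < 16 / ε := by positivity
    rw [hq0]; linarith
  obtain ⟨T, hT⟩ : ∃ T, T = 2 * (q0 + 2) / η := ⟨_, rfl⟩
  have hT0 : 0 < T := by
    rw [hT]
    have : 0 < q0 + 2 := by linarith
    positivity
  have hTη : T * η = 2 * (q0 + 2) := by
    rw [hT]
    field_simp
  obtain ⟨s3, hs30, hs31, hs3⟩ := tm_surj (tm t2 + T)
  have ht2s3 : t2 < s3 := by
    by_contra hcon
    push Not at hcon
    have h1 := tm_mono hs30 hcon ht21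
    linarith
  refine ⟨s3, by linarith, hs31, ?_⟩
  intro W W' τ h H
  -- real coordinates
  obtain ⟨a, ha⟩ : ∃ a : ℝ → ℝ, a = fun s => 1 - (W s).re / 2 := ⟨_, rfl⟩
  obtain ⟨b, hb⟩ : ∃ b : ℝ → ℝ, b = fun s => -((W s).im / 2) := ⟨_, rfl⟩
  obtain ⟨σ1, hσ1⟩ : ∃ σ1 : ℝ → ℝ, σ1 = fun s => ((1 - s ^ 2) * (W s).re + (τ s).re) / 2 :=
    ⟨_, rfl⟩
  obtain ⟨σ2, hσ2⟩ : ∃ σ2 : ℝ → ℝ, σ2 = fun s => ((1 - s ^ 2) * (W s).im + (τ s).im) / 2 :=
    ⟨_, rfl⟩
  have da : ∀ s, s1 ≤ s → s < 1 → HasDerivAt a (-((W' s).re / 2)) s := by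
    intro s g1 g2
    have h1 := (Complex.reCLM.hasFDerivAt (x := W s)).comp_hasDerivAt s (H s g1 g2).1
    have h2 := (h1.div_const 2).const_sub 1
    rw [ha]
    exact h2
  have db : ∀ s, s1 ≤ s → s < 1 → HasDerivAt b (-((W' s).im / 2)) s := by
    intro s g1 g2
    have h1 := (Complex.imCLM.hasFDerivAt (x := W s)).comp_hasDerivAt s (H s g1 g2).1
    have h2 := (h1.div_const 2).neg
    rw [hb]
    exact h2
  have oa : ∀ s, s1 ≤ s → s < 1 →
      s * (1 - s ^ 2) * (-((W' s).re / 2)) = 1 - a s ^ 2 + b s ^ 2 - σ1 s := by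
    intro s g1 g2
    have h1 := congrArg Complex.re (H s g1 g2).2.2.2.1
    simp [pow_two] at h1
    rw [ha, hb, hσ1]
    linear_combination (-1 / 2) * h1
  have ob : ∀ s, s1 ≤ s → s < 1 →
      s * (1 - s ^ 2) * (-((W' s).im / 2)) = -2 * a s * b s - σ2 s := by
    intro s g1 g2
    have h1 := congrArg Complex.im (H s g1 g2).2.2.2.1
    simp [pow_two] at h1
    rw [ha, hb, hσ2]
    linear_combination (-1 / 2) * h1
  have hW6 : ∀ s, s1 ≤ s → s < 1 → ‖W s‖ ≤ 6 := by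
    intro s g1 g2
    have h1 := (H s g1 g2).2.2.2.2.1
    have h2 : ‖W s‖ ≤ ‖W s - 2 * (s : ℂ) ^ 2‖ + ‖2 * (s : ℂ) ^ 2‖ := by
      have h3 := norm_add_le (W s - 2 * (s : ℂ) ^ 2) (2 * (s : ℂ) ^ 2)
      rwa [sub_add_cancel] at h3
    have h3 : ‖2 * (s : ℂ) ^ 2‖ = 2 * s ^ 2 := by
      rw [norm_mul, norm_pow, Complex.norm_real, Real.norm_eq_abs, sq_abs]
      norm_num
    have hs0 : 0 < s := by linarith
    have h4 : s ^ 2 ≤ 1 := by linarith [osq hs0 g2]
    linarith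
  have hσ : ∀ s, s2 ≤ s → s < 1 → σ1 s ^ 2 + σ2 s ^ 2 ≤ k1 ^ 2 := by
    intro s g1 g2
    have g0 : s1 ≤ s := h12.trans g1
    have hs0 : 0 < s := by linarith
    have hx0 : 0 < 1 - s ^ 2 := osq hs0 g2
    have h1 : σ1 s ^ 2 + σ2 s ^ 2 = (‖((1 - s ^ 2 : ℝ) : ℂ) * W s + τ s‖ / 2) ^ 2 := by
      rw [div_pow, Complex.sq_norm, Complex.normSq_apply, hσ1, hσ2]
      simp only [Complex.add_re, Complex.add_im, Complex.re_ofReal_mul, Complex.im_ofReal_mul]
      ring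
    rw [h1]
    refine pow_le_pow_left₀ (by positivity) ?_ 2
    have h2 : ‖((1 - s ^ 2 : ℝ) : ℂ) * W s + τ s‖ ≤ (1 - s ^ 2) * 6 + 2 * k := by
      refine (norm_add_le _ _).trans (add_le_add ?_ ?_)
      · rw [norm_mul, Complex.norm_real, Real.norm_eq_abs, abs_of_pos hx0]
        exact mul_le_mul_of_nonneg_left (hW6 s g0 g2) hx0.le
      · refine (H s g0 g2).2.2.1.trans ?_
        exact mul_le_of_le_one_right (by linarith) (by linarith)
    have h3 : 3 * (1 - s ^ 2) ≤ η := by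
      have h4 : s2 ^ 2 ≤ s ^ 2 := pow_le_pow_left₀ hs20.le g1 2
      linarith
    rw [hηd] at h3
    rw [hk1d] at h3 ⊢
    linarith
  have hab : ∀ s, s1 ≤ s → s < 1 → a s ^ 2 + b s ^ 2 ≤ 16 := by
    intro s g1 g2
    have h1 : a s ^ 2 + b s ^ 2 = ‖1 - W s / 2‖ ^ 2 := by
      rw [Complex.sq_norm, Complex.normSq_apply, ha, hb]
      simp
      ring
    have h2 : ‖1 - W s / 2‖ ≤ 4 := by
      refine (norm_sub_le _ _).trans ?_
      rw [norm_div, norm_one]
      have h3 := hW6 s g1 g2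
      have h4 : ‖(2:ℂ)‖ = 2 := by norm_num
      rw [h4]
      linarith
    rw [h1]
    have h5 := pow_le_pow_left₀ (norm_nonneg (1 - W s / 2)) h2 2
    linarith
  -- Step A
  obtain ⟨sa, hsa, hasa⟩ : ∃ sa ∈ Icc s2 t2, -ε ≤ a sa := by
    by_contra hcon
    push Not at hcon
    have hmono : MonotoneOn (fun s => (h s).re - (1 + ε) * la s) (Icc s2 t2) := by
      have hd : ∀ s ∈ Icc s2 t2, HasDerivAt (fun s => (h s).re - (1 + ε) * la s)
          ((W s).re / (s * (1 - s ^ 2)) - (1 + ε) * (2 * s / (1 - s ^ 2))) s := by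
        intro s hs
        have g1 : s1 ≤ s := h12.trans hs.1
        have g2 : s < 1 := lt_of_le_of_lt hs.2 ht21
        have h1 := (Complex.reCLM.hasFDerivAt (x := h s)).comp_hasDerivAt s (H s g1 g2).2.1
        have h2 := h1.sub ((la_deriv (by linarith : (0:ℝ) ≤ s) g2).const_mul (1 + ε))
        refine h2.congr_deriv ?_
        rw [Complex.reCLM_apply, Complex.div_ofReal_re]
      refine monotoneOn_of_deriv_nonneg (convex_Icc _ _) ?_ ?_ ?_
      · exact fun s hs => (hd s hs).continuousAt.continuousWithinAt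
      · intro s hs
        rw [interior_Icc] at hs
        exact (hd s ⟨hs.1.le, hs.2.le⟩).differentiableAt.differentiableWithinAt
      · intro s hs
        rw [interior_Icc] at hs
        have hs' : s ∈ Icc s2 t2 := ⟨hs.1.le, hs.2.le⟩
        have g2 : s < 1 := lt_of_le_of_lt hs'.2 ht21
        have hs0 : 0 < s := by linarith [hs'.1]
        have hx0 : 0 < 1 - s ^ 2 := osq hs0 g2
        rw [(hd s hs').deriv]
        have h3 := hcon s hs'
        rw [ha] at h3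
        have h4 : (W s).re / (s * (1 - s ^ 2)) - (1 + ε) * (2 * s / (1 - s ^ 2)) =
            ((W s).re - (1 + ε) * (2 * s ^ 2)) / (s * (1 - s ^ 2)) := by
          field_simp
        rw [h4]
        refine div_nonneg ?_ (by positivity)
        have h5 : 1 - (W s).re / 2 < -ε := h3
        have h6 : (1 + ε) * (2 * s ^ 2) ≤ (1 + ε) * 2 :=
          mul_le_mul_of_nonneg_left (by linarith) (by linarith)
        linarith
    have h1 := hmono (left_mem_Icc.2 hs2t2.le) (right_mem_Icc.2 hs2t2.le) hs2t2.le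
    have h2 : (h t2).re ≤ la t2 :=
      (Complex.re_le_norm _).trans (H t2 (by linarith) ht21).2.2.2.2.2
    have h3 : -la s2 ≤ (h s2).re := by
      have h4 := (Complex.abs_re_le_norm (h s2)).trans (H s2 h12 hs21).2.2.2.2.2
      exact (abs_le.1 h4).1
    have h5 : (h s2).re - (1 + ε) * la s2 ≤ (h t2).re - (1 + ε) * la t2 := h1
    rw [add_mul, add_mul, one_mul, one_mul] at h5
    rw [add_mul] at ht2'
    linarith
  have hsa0 : 0 < sa := by linarith [hsa.1]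
  have hsa1 : sa < 1 := lt_of_le_of_lt hsa.2 ht21
  -- Step B: the moving disc
  obtain ⟨sb, hsb, htsb⟩ : ∃ sb ∈ Icc sa s3, tm sb = tm sa + T := by
    have hle : sa ≤ s3 := by linarith [hsa.2]
    have hcont : ContinuousOn tm (Icc sa s3) := fun s hs =>
      (tm_deriv (lt_of_lt_of_le hsa0 hs.1)
        (lt_of_le_of_lt hs.2 hs31)).continuousAt.continuousWithinAt
    have h1 := intermediate_value_Icc hle hcont
    have h2 : tm sa + T ∈ Icc (tm sa) (tm s3) := by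
      refine ⟨by linarith, ?_⟩
      rw [hs3]
      have := tm_mono hsa0 hsa.2 ht21
      linarith
    obtain ⟨sb, g1, g2⟩ := h1 h2
    exact ⟨sb, g1, g2⟩
  have hsb1 : sb < 1 := lt_of_le_of_lt hsb.2 hs31
  have hdisc1 := moving (k' := k') (k1 := k1) (η := η) (sa := sa) (sb := sb) hηd hk10 hsa0 hsb1
    a b (fun s => -((W' s).re / 2)) (fun s => -((W' s).im / 2)) σ1 σ2
    (fun s => -ps + 2 * ps * ((tm s - tm sa) / T))
    (fun s => q0 - (q0 - qs) * ((tm s - tm sa) / T))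
    (fun s => 2 * ps * ((s * (1 - s ^ 2))⁻¹ / T))
    (fun s => -((q0 - qs) * ((s * (1 - s ^ 2))⁻¹ / T)))
    (fun s hs => da s (by linarith [hs.1, hsa.1]) (lt_of_le_of_lt hs.2 hsb1))
    (fun s hs => db s (by linarith [hs.1, hsa.1]) (lt_of_le_of_lt hs.2 hsb1))
    (fun s hs => oa s (by linarith [hs.1, hsa.1]) (lt_of_le_of_lt hs.2 hsb1))
    (fun s hs => ob s (by linarith [hs.1, hsa.1]) (lt_of_le_of_lt hs.2 hsb1))
    (fun s hs => hσ s (by linarith [hs.1, hsa.1]) (lt_of_le_of_lt hs.2 hsb1))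
    (fun s hs => (((tm_deriv (lt_of_lt_of_le hsa0 hs.1)
      (lt_of_le_of_lt hs.2 hsb1)).sub_const (tm sa)).div_const T).const_mul (2 * ps) |>.const_add _)
    (fun s hs => ((((tm_deriv (lt_of_lt_of_le hsa0 hs.1)
      (lt_of_le_of_lt hs.2 hsb1)).sub_const (tm sa)).div_const T).const_mul (q0 - qs)).const_sub _)
    (by
      intro s hs
      have hs0 : 0 < s := lt_of_lt_of_le hsa0 hs.1
      have g2 : s < 1 := lt_of_le_of_lt hs.2 hsb1
      have hx : 0 < s * (1 - s ^ 2) := mul_pos hs0 (osq hs0 g2)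
      have h1 : s * (1 - s ^ 2) * (2 * ps * ((s * (1 - s ^ 2))⁻¹ / T)) = 2 * ps / T := by
        obtain ⟨X, hX⟩ : ∃ X, X = s * (1 - s ^ 2) := ⟨_, rfl⟩
        rw [← hX] at hx ⊢
        field_simp
      rw [h1]
      refine ⟨by positivity, ?_⟩
      rw [div_lt_iff₀ hT0, mul_comm η T, hTη]
      linarith)
    (by
      intro s hs
      have hs0 : 0 < s := lt_of_lt_of_le hsa0 hs.1
      have g2 : s < 1 := lt_of_le_of_lt hs.2 hsb1
      have hx : 0 < s * (1 - s ^ 2) := mul_pos hs0 (osq hs0 g2)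
      have h1 : s * (1 - s ^ 2) * (-((q0 - qs) * ((s * (1 - s ^ 2))⁻¹ / T))) =
          -((q0 - qs) / T) := by
        obtain ⟨X, hX⟩ : ∃ X, X = s * (1 - s ^ 2) := ⟨_, rfl⟩
        rw [← hX] at hx ⊢
        field_simp
      rw [h1]
      have h2 : 0 ≤ (q0 - qs) / T := div_nonneg (by linarith) hT0.le
      refine ⟨by linarith, ?_⟩
      rw [neg_lt_neg_iff, div_lt_iff₀ hT0, mul_comm η T, hTη]
      linarith)
    (by
      intro s hs
      have hl0 : 0 ≤ (tm s - tm sa) / T :=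
        div_nonneg (by linarith [tm_mono hsa0 hs.1 (lt_of_le_of_lt hs.2 hsb1)]) hT0.le
      have hl1 : (tm s - tm sa) / T ≤ 1 := by
        rw [div_le_one hT0]
        linarith [tm_mono (lt_of_lt_of_le hsa0 hs.1) hs.2 hsb1]
      show -ps + 2 * ps * ((tm s - tm sa) / T) < q0 - (q0 - qs) * ((tm s - tm sa) / T)
      have h1 : 2 * ps * ((tm s - tm sa) / T) ≤ 2 * ps :=
        mul_le_of_le_one_right (by linarith) hl1
      have h2 : (q0 - qs) * ((tm s - tm sa) / T) ≤ q0 - qs :=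
        mul_le_of_le_one_right (by linarith) hl1
      linarith)
    (by
      intro s hs
      have hl0 : 0 ≤ (tm s - tm sa) / T :=
        div_nonneg (by linarith [tm_mono hsa0 hs.1 (lt_of_le_of_lt hs.2 hsb1)]) hT0.le
      have hl1 : (tm s - tm sa) / T ≤ 1 := by
        rw [div_le_one hT0]
        linarith [tm_mono (lt_of_lt_of_le hsa0 hs.1) hs.2 hsb1]
      show (-ps + 2 * ps * ((tm s - tm sa) / T)) ^ 2 ≤ 1 - k'
      rw [← hps2]
      obtain ⟨l, hl⟩ : ∃ l, l = (tm s - tm sa) / T := ⟨_, rfl⟩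
      rw [← hl] at hl0 hl1 ⊢
      have h1 : (-ps + 2 * ps * l) ^ 2 = ps ^ 2 - 4 * ps ^ 2 * (l * (1 - l)) := by ring
      rw [h1]
      have h2 : 0 ≤ ps ^ 2 * (l * (1 - l)) :=
        mul_nonneg (by positivity) (mul_nonneg hl0 (by linarith))
      linarith)
    (by
      intro s hs
      have hl0 : 0 ≤ (tm s - tm sa) / T :=
        div_nonneg (by linarith [tm_mono hsa0 hs.1 (lt_of_le_of_lt hs.2 hsb1)]) hT0.le
      have hl1 : (tm s - tm sa) / T ≤ 1 := by
        rw [div_le_one hT0]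
        linarith [tm_mono (lt_of_lt_of_le hsa0 hs.1) hs.2 hsb1]
      show 1 + k' ≤ (q0 - (q0 - qs) * ((tm s - tm sa) / T)) ^ 2
      rw [← hqs2]
      refine pow_le_pow_left₀ (by linarith) ?_ 2
      have h2 : (q0 - qs) * ((tm s - tm sa) / T) ≤ q0 - qs :=
        mul_le_of_le_one_right (by linarith) hl1
      linarith)
    (by
      have h1 := hab sa (by linarith [hsa.1]) hsa1
      simp only [sub_self, zero_div, mul_zero, add_zero, sub_zero]
      have h2 : (a sa - (-ps + q0) / 2) ^ 2 + b sa ^ 2 - ((q0 - -ps) / 2) ^ 2 =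
          a sa ^ 2 + b sa ^ 2 - a sa * (q0 - ps) - ps * q0 := by ring
      have h3 : -ε * (q0 - ps) ≤ a sa * (q0 - ps) :=
        mul_le_mul_of_nonneg_right hasa (by linarith)
      have h4 : ps = 2 * ε := by rw [hε]; ring
      rw [h4] at h2 h3
      rw [h4]
      have h5 : -ε * (q0 - 2 * ε) = -(ε * q0) + 2 * (ε * ε) := by ring
      have h6 : 2 * ε * q0 = 2 * (ε * q0) := by ring
      have h7 : 0 < ε * ε := mul_pos hε0 hε0
      linarith)
  have hb1 := hdisc1 sb (right_mem_Icc.2 hsb.1)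
  have hlsb : (tm sb - tm sa) / T = 1 := by
    rw [htsb]
    field_simp
    ring
  simp only [hlsb] at hb1
  -- Step C: the constant disc
  intro s hs3s hs1s
  have hsbs : sb ≤ s := hsb.2.trans hs3s
  have hsb0 : 0 < sb := lt_of_lt_of_le hsa0 hsb.1
  have hdisc2 := moving (k' := k') (k1 := k1) (η := η) (sa := sb) (sb := s) hηd hk10 hsb0 hs1s
    a b (fun s => -((W' s).re / 2)) (fun s => -((W' s).im / 2)) σ1 σ2
    (fun _ => ps) (fun _ => qs) (fun _ => 0) (fun _ => 0)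
    (fun t ht => da t (by linarith [ht.1, hsa.1, hsb.1]) (lt_of_le_of_lt ht.2 hs1s))
    (fun t ht => db t (by linarith [ht.1, hsa.1, hsb.1]) (lt_of_le_of_lt ht.2 hs1s))
    (fun t ht => oa t (by linarith [ht.1, hsa.1, hsb.1]) (lt_of_le_of_lt ht.2 hs1s))
    (fun t ht => ob t (by linarith [ht.1, hsa.1, hsb.1]) (lt_of_le_of_lt ht.2 hs1s))
    (fun t ht => hσ t (by linarith [ht.1, hsa.1, hsb.1]) (lt_of_le_of_lt ht.2 hs1s))
    (fun t _ => hasDerivAt_const _ _) (fun t _ => hasDerivAt_const _ _)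
    (fun t _ => by simp only [mul_zero]; exact ⟨le_refl _, hη0⟩)
    (fun t _ => by simp only [mul_zero]; exact ⟨le_refl _, by linarith⟩)
    (fun t _ => hpsq) (fun t _ => hps2.le) (fun t _ => hqs2.ge)
    (by
      refine le_trans (le_of_eq ?_) (hb1.trans (le_of_eq ?_))
      · ring
      · ring)
  have h1 := hdisc2 s (right_mem_Icc.2 hsbs)
  have h2 : ‖W s - ((2 * (1 - c) : ℝ) : ℂ)‖ ^ 2 = 4 * ((a s - (ps + qs) / 2) ^ 2 + b s ^ 2) := by
    rw [Complex.sq_norm, Complex.normSq_apply, ha, hb, hps, hqs]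
    simp only [Complex.sub_re, Complex.sub_im, Complex.ofReal_re, Complex.ofReal_im]
    ring
  have h3 : ‖W s - ((2 * (1 - c) : ℝ) : ℂ)‖ ^ 2 ≤ (2 * R) ^ 2 := by
    rw [h2]
    have h4 : (2 * R) ^ 2 = 4 * ((qs - ps) / 2) ^ 2 := by rw [hps, hqs]; ring
    rw [h4]
    linarith
  exact (abs_le_of_sq_le_sq' h3 (by positivity)).2

end Q275.SM
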